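import Mathlib

set_option autoImplicit false

namespace Pool.Agent.Results.MP_1cb079_al.WCL

open scoped commutatorElement

universe u

lemma step {H : Type u} [Group H] (X : Set H) (hX : Subgroup.closure X = ⊤) (n : ℕ)
    (hc : ∀ x ∈ X, x ^ n ∈ Subgroup.center H) (i : ℕ) :
    ∀ g ∈ (⊤ : Subgroup H).lowerCentralSeries (i + 1),
      g ^ n ∈ (⊤ : Subgroup H).lowerCentralSeries (i + 2) := by
  let π := QuotientGroup.mk' ((⊤ : Subgroup H).lowerCentralSeries (i + 2))
  have hcen : ∀ g ∈ (⊤ : Subgroup H).lowerCentralSeries (i + 1), ∀ h, Commute (π g) (π h) := by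
    intro g hg h
    rw [← commutatorElement_eq_one_iff_commute, ← map_commutatorElement]
    exact (QuotientGroup.eq_one_iff _).mpr
      (Subgroup.commutator_mem_commutator hg (Subgroup.mem_top h))
  intro g hg
  suffices h : π g ^ n = 1 from (QuotientGroup.eq_one_iff _).mp (by rw [← h]; rfl)
  rw [Subgroup.mem_lowerCentralSeries_succ_iff] at hg
  induction hg using Subgroup.closure_induction with
  | one => rw [map_one, one_pow]
  | mul x y hx _ h1 h2 => rw [map_mul, (hcen x hx y).mul_pow, h1, h2, one_mul]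
  | inv x _ h => rw [map_inv, inv_pow, h, inv_one]
  | mem x hx =>
    obtain ⟨a, ha, b, -, rfl⟩ := hx
    have hab : ∀ b, ⁅a, b⁆ ∈ (⊤ : Subgroup H).lowerCentralSeries (i + 1) := fun b =>
      Subgroup.commutator_mem_commutator ha (Subgroup.mem_top b)
    let f : H →* H ⧸ (⊤ : Subgroup H).lowerCentralSeries (i + 2) :=
      MonoidHom.mk' (fun b => π ⁅a, b⁆) (by
        intro b c
        have : ⁅a, b * c⁆ = ⁅a, b⁆ * (b * ⁅a, c⁆ * b⁻¹) := by
          simp only [commutatorElement_def]; group
        rw [this, map_mul, map_mul, map_mul, ← (hcen _ (hab c) b).eq, map_inv,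
          mul_inv_cancel_right])
    have hb : b ∈ Subgroup.closure X := hX ▸ Subgroup.mem_top b
    change f b ^ n = 1
    induction hb using Subgroup.closure_induction with
    | one => rw [map_one, one_pow]
    | mul x y _ _ h1 h2 =>
      have : Commute (f x) (f y) := hcen _ (hab x) ⁅a, y⁆
      rw [map_mul, this.mul_pow, h1, h2, one_mul]
    | inv x _ h => rw [map_inv, inv_pow, h, inv_one]
    | mem x hx =>
      rw [← map_pow]
      change π ⁅a, x ^ n⁆ = 1
      rw [commutatorElement_eq_one_iff_mul_comm.mpr (Subgroup.mem_center_iff.mp (hc x hx) a),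
        map_one]

lemma key {H : Type u} [Group H] (x y : H) (hX : Subgroup.closure {x, y} = ⊤) (n : ℕ)
    (h : x ^ n = y ^ n) (k : ℕ) :
    (x * y⁻¹) ^ n ^ (k + 1) ∈ (⊤ : Subgroup H).lowerCentralSeries (k + 1) := by
  induction k with
  | zero =>
    have : (x * y⁻¹) ^ n ∈ (Abelianization.of (G := H)).ker := by
      rw [MonoidHom.mem_ker, map_pow, map_mul, mul_pow, ← map_pow, ← map_pow, ← map_mul, inv_pow,
        h, mul_inv_cancel, map_one]
    rw [Abelianization.ker_of] at this
    rw [zero_add, pow_one]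
    exact this
  | succ k ih =>
    rw [pow_succ, pow_mul]
    refine step {x, y} hX n ?_ k _ ih
    have : x ^ n ∈ Subgroup.center H := by
      rw [← Subgroup.centralizer_univ, ← Subgroup.coe_top, ← hX, Subgroup.centralizer_closure]
      rintro z (rfl | rfl)
      · exact (Commute.self_pow _ _).eq
      · exact h ▸ (Commute.self_pow _ _).eq
    rintro z (rfl | rfl)
    exacts [this, h ▸ this]

/-- Every nilpotent almost torsion-free group satisfies the weak cancellation law. -/
theorem result (G : Type u) [Group G] (hG : Group.IsNilpotent G)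
    (h : ∀ n : ℕ, 0 < n → {g : G | g ^ n = 1}.Finite) (n : ℕ) (hn : 0 < n) (y : G) :
    {x : G | x ^ n = y}.Finite := by
  obtain ⟨c, hc⟩ := Subgroup.nilpotent_iff_lowerCentralSeries.mp hG
  rcases Set.eq_empty_or_nonempty {x : G | x ^ n = y} with h0 | ⟨x0, hx0⟩
  · rw [h0]; exact Set.finite_empty
  refine ((h (n ^ (c + 1)) (by positivity)).image (· * x0)).subset fun x hx => ⟨x * x0⁻¹, ?_, by simp⟩
  let S := Subgroup.closure {x, x0}
  let a : S := ⟨x, Subgroup.subset_closure (by simp)⟩
  let b : S := ⟨x0, Subgroup.subset_closure (by simp)⟩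
  have h1 : Subgroup.closure {a, b} = ⊤ := by
    apply Subgroup.map_injective S.subtype_injective
    rw [MonoidHom.map_closure, ← MonoidHom.range_eq_map, Subgroup.range_subtype,
      Set.image_pair]
    rfl
  have h2 := key a b h1 n (Subtype.ext (hx.trans hx0.symm)) c
  have h3 : ((a * b⁻¹) ^ n ^ (c + 1)).1 ∈
      ((⊤ : Subgroup S).lowerCentralSeries (c + 1)).map S.subtype := ⟨_, h2, rfl⟩
  rw [Subgroup.map_lowerCentralSeries] at h3
  exact hc.le (Subgroup.lowerCentralSeries_antitone _ (Nat.le_succ c)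
    (Subgroup.lowerCentralSeries_mono _ le_top h3))

end Pool.Agent.Results.MP_1cb079_al.WCL
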